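import Pool.Agent.TH151.SDefs

/-!
# Multiplicity of type A Schubert varieties at all torus-fixed points: definitions

`GL_n / B`, `B` the upper triangular matrices; `e_u = u B`; `X_v` is the closure of `B v B / B`.
For `u ∈ S_n` the map `z ↦ u z B` identifies the group `U⁻` of lower unitriangular matrices with an
open neighbourhood of the point `e_u` of `GL_n / B`, the identity matrix corresponding to `e_u`.  So
the local ring of `X_v` at `e_u` is the local ring, at the origin of the affine space `U⁻`, of the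
closure of `{z ∈ U⁻ : u z ∈ B v B}`.
-/

namespace Pool.Agent.X326.SM

open MvPolynomial Filter Topology Pool.Agent.TH151.SchubMult

/-- The ideal, in the coordinate ring `ℂ[x_{ij} : i > j]` of `U⁻`, of the intersection of the
Schubert variety `X_v` with the chart `u U⁻ B / B` around `e_u`: all polynomials vanishing on
`{z ∈ U⁻ : u z ∈ B v B}`. -/
noncomputable def chartIdeal {n : ℕ} (v u : Equiv.Perm (Fin n)) : Ideal (MvPolynomial (Low n) ℂ) :=
  vanishingIdeal ℂ {x | permMat u * lowMat x ∈ BwB v}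

/-- `e_u ∈ X_v`: all polynomials of the ideal of `X_v` in the chart around `e_u` vanish at the
origin.  (This is `u ≤ v` in Bruhat order.) -/
def PointMem {n : ℕ} (v u : Equiv.Perm (Fin n)) : Prop :=
  chartIdeal v u ≤ idealOfVars (Low n) ℂ

/-- The Hilbert-Samuel function of `X_v` at `e_u`: the dimension of `𝒪 / 𝔪^k`, where `𝒪` is the
local ring of `X_v` at `e_u`, `𝔪` its maximal ideal; here
`𝒪 / 𝔪^k = ℂ[x_{ij}] / (I + (x_{ij})^k)`. -/
noncomputable def hilbertSamuelAt {n : ℕ} (v u : Equiv.Perm (Fin n)) (k : ℕ) : ℕ :=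
  Module.finrank ℂ (MvPolynomial (Low n) ℂ ⧸ (chartIdeal v u ⊔ idealOfVars (Low n) ℂ ^ k))

/-- `e_u ∈ X_v` and `e` is the Hilbert-Samuel multiplicity of `X_v` at `e_u`: it is positive and
`dim 𝒪 / 𝔪^k` is asymptotic to `e k^d / d!` for some `d` (which is then the dimension). -/
def IsMultAt {n : ℕ} (v u : Equiv.Perm (Fin n)) (e : ℝ) : Prop :=
  PointMem v u ∧ 0 < e ∧
    ∃ d : ℕ, Tendsto (fun k : ℕ => (d.factorial : ℝ) * (hilbertSamuelAt v u k : ℝ) / (k : ℝ) ^ d)
      atTop (𝓝 e)

/-- The set `ℳ₃` of the permutations `v` such that the multiplicity of `X_v` at `e_u` is at least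
`3` for some `u ≤ v`. -/
def M3 : Set (Σ n : ℕ, Equiv.Perm (Fin n)) :=
  {v | ∃ (u : Equiv.Perm (Fin v.1)) (e : ℝ), IsMultAt v.2 u e ∧ 3 ≤ e}

end Pool.Agent.X326.SM
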