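import Pool.Agent.X326.SM.Dag
import Pool.Agent.X326.SM.Defs

/-!
# The order of the path polynomials, and the multiplicity in the chart
-/

namespace Pool.Agent.X326.SM

open MvPolynomial Matrix Filter Topology
open Pool.Agent.TH151.SchubMult (Low lowMat dvd_supported aeval_fix exists_order tendsto_hyper)

variable {N : ℕ}

lemma path_step {A : Type*} [CommRing A] (x : Low (N + 1) → A) {t a l : Fin (N + 1)} (hta : t ≠ a)
    (hal : a < l) (hx : ∀ m, ∀ h : a < m, m ≠ l → x ⟨(m, a), h⟩ = 0) :
    (genMat x)⁻¹ t a = - (genMat x)⁻¹ t l * x ⟨(l, a), hal⟩ := by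
  rw [row_rec, if_neg hta, zero_sub, Finset.sum_eq_single l]
  · rw [dif_pos hal, neg_mul]
  · intro m _ hm
    split_ifs with h
    · rw [hx m h hm, mul_zero]
    · rfl
  · intro h; exact absurd (Finset.mem_univ _) h

lemma inv_diag {A : Type*} [CommRing A] (x : Low (N + 1) → A) (i : Fin (N + 1)) :
    (genMat x)⁻¹ i i = 1 := by
  have hup : ∀ i j : Fin (N + 1), i < j → (genMat x)⁻¹ i j = 0 := by
    intro i
    induction hk : i.1 using Nat.strong_induction_on generalizing i with
    | _ k ih =>
    intro j h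
    rw [col_rec, if_neg h.ne, zero_sub, neg_eq_zero]
    apply Finset.sum_eq_zero
    intro l _
    split_ifs with h'
    · have h1 : l.1 < i.1 := h'
      rw [ih l.1 (by omega) l rfl j (h'.trans h), mul_zero]
    · rfl
  rw [col_rec, if_pos rfl, sub_eq_self]
  apply Finset.sum_eq_zero
  intro l _
  split_ifs with h'
  · rw [hup l i h', mul_zero]
  · rfl

variable {E : Low (N + 1) → Prop} [DecidablePred E]

lemma order_one {t a : Fin (N + 1)} (hat : a < t) (hE : E ⟨(t, a), hat⟩) :
    Y E t a ∉ idealOfVars (Edge E) ℂ ^ 3 := by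
  classical
  intro h
  set z : Edge E → Polynomial ℂ := fun p => if p.1 = ⟨(t, a), hat⟩ then Polynomial.X else 0 with hz
  have h1 := spec_mem h z (by
    intro p
    rw [hz]
    simp only
    split_ifs
    · exact dvd_rfl
    · exact dvd_zero _)
  rw [Y_eval, path_step _ hat.ne' hat, inv_diag, ext0, dif_pos hE, hz] at h1
  · simp only [if_true] at h1
    rw [neg_one_mul, dvd_neg, Polynomial.X_pow_dvd_iff] at h1
    have := h1 1 (by norm_num)
    rw [Polynomial.coeff_X_one] at this
    exact one_ne_zero this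
  · intro m hm hml
    rw [ext0]
    split_ifs with h2
    · rw [hz]
      simp only
      rw [if_neg]
      intro h3
      exact hml (congrArg (fun q : Low (N + 1) => q.1.1) h3)
    · rfl

lemma order_two {t a l : Fin (N + 1)} (hal : a < l) (hlt : l < t) (hE : E ⟨(l, a), hal⟩)
    (hE' : E ⟨(t, l), hlt⟩) :
    Y E t a ∉ idealOfVars (Edge E) ℂ ^ 3 := by
  classical
  intro h
  set z : Edge E → Polynomial ℂ := fun p =>
    if p.1 = ⟨(l, a), hal⟩ ∨ p.1 = ⟨(t, l), hlt⟩ then Polynomial.X else 0 with hz
  have h1 := spec_mem h z (by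
    intro p
    rw [hz]
    simp only
    split_ifs
    · exact dvd_rfl
    · exact dvd_zero _)
  rw [Y_eval, path_step _ (hal.trans hlt).ne' hal, path_step _ hlt.ne' hlt, inv_diag, ext0,
    dif_pos hE', ext0, dif_pos hE, hz] at h1
  · simp only [true_or, or_true, if_true] at h1
    have h2 : -(-1 * (Polynomial.X : Polynomial ℂ)) * Polynomial.X = Polynomial.X ^ 2 := by ring
    rw [h2, Polynomial.X_pow_dvd_iff] at h1
    have := h1 2 (by norm_num)
    rw [Polynomial.coeff_X_pow_self] at this
    exact one_ne_zero this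
  · intro m hm hml
    rw [ext0]
    split_ifs with h2
    · rw [hz]
      simp only
      rw [if_neg]
      rintro (h3 | h3)
      · have h4 := congrArg (fun q : Low (N + 1) => q.1.2) h3
        simp only at h4
        exact hal.ne' h4
      · exact hml (congrArg (fun q : Low (N + 1) => q.1.1) h3)
    · rfl
  · intro m hm hml
    rw [ext0]
    split_ifs with h2
    · rw [hz]
      simp only
      rw [if_neg]
      rintro (h3 | h3)
      · exact hml (congrArg (fun q : Low (N + 1) => q.1.1) h3)
      · have h4 := congrArg (fun q : Low (N + 1) => q.1.2) h3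
        simp only at h4
        exact hal.ne h4
    · rfl

/-- killing of the forbidden variables -/
noncomputable def phi (E : Low (N + 1) → Prop) [DecidablePred E] :
    MvPolynomial (Low (N + 1)) ℂ →ₐ[ℂ] RE E :=
  aeval (ext0 E (fun p => (X p : RE E)))

lemma phi_X (p : Low (N + 1)) : phi E (X p) = ext0 E (fun p => (X p : RE E)) p := by
  rw [phi, aeval_X]

lemma phi_surj : Function.Surjective (phi E) := by
  intro q
  refine ⟨rename (fun p : Edge E => p.1) q, ?_⟩
  rw [phi, aeval_rename]
  have : ((ext0 E (fun p => (X p : RE E))) ∘ fun p : Edge E => p.1) = X := by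
    funext p
    simp only [Function.comp_apply]
    rw [ext0, dif_pos p.2]
  rw [this, aeval_X_left]
  rfl

lemma map_idealOfVars : Ideal.map (phi E) (idealOfVars (Low (N + 1)) ℂ) =
    idealOfVars (Edge E) ℂ := by
  apply le_antisymm
  · rw [idealOfVars, Ideal.map_span, Ideal.span_le]
    rintro _ ⟨_, ⟨p, rfl⟩, rfl⟩
    rw [phi_X, ext0]
    split_ifs with h
    · exact Ideal.subset_span ⟨_, rfl⟩
    · exact Ideal.zero_mem _
  · rw [idealOfVars, idealOfVars, Ideal.span_le]
    rintro _ ⟨q, rfl⟩
    have : phi E (X q.1) = X q := by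
      rw [phi_X, ext0, dif_pos q.2]
    rw [← this]
    exact Ideal.mem_map_of_mem _ (Ideal.subset_span ⟨_, rfl⟩)

lemma aeval_phi {x : Low (N + 1) → ℂ} (hx : ∀ p : Low (N + 1), ¬ E p → x p = 0)
    (p : MvPolynomial (Low (N + 1)) ℂ) :
    aeval (fun q : Edge E => x q.1) (phi E p) = aeval x p := by
  have : (aeval (fun q : Edge E => x q.1)).comp (phi E) =
      (aeval x : MvPolynomial (Low (N + 1)) ℂ →ₐ[ℂ] ℂ) := by
    apply MvPolynomial.algHom_ext
    intro i
    rw [AlgHom.comp_apply, phi_X, aeval_X, ext0]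
    split_ifs with h
    · rw [aeval_X]
    · rw [map_zero, hx i h]
  exact AlgHom.congr_fun this p

/-- The multiplicity in a chart in which the Schubert variety is a hypersurface in the space of the
matrices with prescribed zeros. -/
lemma isMultAt_of {v u : Equiv.Perm (Fin (N + 1))} {G : RE E} [Nonempty (Edge E)]
    (hI : chartIdeal v u = Ideal.comap (phi E) (Ideal.span {G})) (hG0 : G ≠ 0)
    (hG : G ∈ idealOfVars (Edge E) ℂ) :
    ∃ s : ℕ, 1 ≤ s ∧ G ∈ idealOfVars (Edge E) ℂ ^ s ∧ G ∉ idealOfVars (Edge E) ℂ ^ (s + 1) ∧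
      IsMultAt v u s := by
  obtain ⟨s, hs, hs'⟩ := exists_order hG0
  have hs1 : 1 ≤ s := by
    by_contra hcon
    have h0 : s = 0 := by omega
    rw [h0, zero_add, pow_one] at hs'
    exact hs' hG
  refine ⟨s, hs1, hs, hs', ?_, by exact_mod_cast hs1, Fintype.card (Edge E) - 1, ?_⟩
  · intro p hp
    rw [hI, Ideal.mem_comap] at hp
    have h1 : phi E p ∈ idealOfVars (Edge E) ℂ :=
      (Ideal.span_singleton_le_iff_mem _).2 hG hp
    -- constant coefficients
    have h2 : (aeval (fun _ => (0 : ℂ)) : RE E →ₐ[ℂ] ℂ) (phi E p) = 0 := by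
      have h3 := Ideal.mem_map_of_mem (aeval (fun _ => (0 : ℂ)) : RE E →ₐ[ℂ] ℂ) h1
      have h4 : Ideal.map (aeval (fun _ => (0 : ℂ)) : RE E →ₐ[ℂ] ℂ)
          (idealOfVars (Edge E) ℂ) ≤ ⊥ := by
        rw [idealOfVars, Ideal.map_span, Ideal.span_le]
        rintro _ ⟨_, ⟨p, rfl⟩, rfl⟩
        simp
      exact h4 h3
    have h5 := aeval_phi (E := E) (x := fun _ => (0 : ℂ)) (fun _ _ => rfl) p
    rw [h5] at h2
    have h6 := (mem_pow_idealOfVars_iff' (σ := Low (N + 1)) (R := ℂ) 1 p).2 (by
      intro x hx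
      have hx0 : x = 0 := by
        rw [Nat.lt_one_iff, Finsupp.degree_eq_zero_iff] at hx
        exact hx
      rw [hx0, ← constantCoeff_eq]
      have h7 : constantCoeff p = aeval (fun _ => (0 : ℂ)) p := by
        have h8 := aeval_zero (σ := Low (N + 1)) (R := ℂ) (S₁ := ℂ) p
        simpa using h8.symm
      rw [h7]
      exact h2)
    rwa [pow_one] at h6
  · have hHS : ∀ k, hilbertSamuelAt v u k = Module.finrank ℂ
        (RE E ⧸ (Ideal.span {G} ⊔ idealOfVars (Edge E) ℂ ^ k)) := by
      intro k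
      set K := Ideal.span {G} ⊔ idealOfVars (Edge E) ℂ ^ k with hK
      have h1 : chartIdeal v u ⊔ idealOfVars (Low (N + 1)) ℂ ^ k = Ideal.comap (phi E) K := by
        rw [hI]
        set I := Ideal.comap (phi E) (Ideal.span {G}) ⊔ idealOfVars (Low (N + 1)) ℂ ^ k with hI'
        have h2 : Ideal.map (phi E) I = K := by
          rw [hI', Ideal.map_sup, Ideal.map_pow, map_idealOfVars,
            Ideal.map_comap_of_surjective _ phi_surj]
        rw [← h2, Ideal.comap_map_of_surjective _ phi_surj, eq_comm, sup_eq_left]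
        refine le_trans ?_ le_sup_left
        exact Ideal.comap_mono bot_le
      let g : MvPolynomial (Low (N + 1)) ℂ →ₐ[ℂ] (RE E ⧸ K) :=
        (Ideal.Quotient.mkₐ ℂ K).comp (phi E)
      have hg : Function.Surjective g := (Ideal.Quotient.mkₐ_surjective ℂ K).comp phi_surj
      have hker : RingHom.ker g = Ideal.comap (phi E) K := by
        ext p
        rw [RingHom.mem_ker, Ideal.mem_comap]
        change Ideal.Quotient.mk K (phi E p) = 0 ↔ _
        rw [Ideal.Quotient.eq_zero_iff_mem]
      have e := Ideal.quotientKerAlgEquivOfSurjective hg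
      rw [hilbertSamuelAt, h1, ← hker]
      exact e.toLinearEquiv.finrank_eq
    simp_rw [hHS]
    exact tendsto_hyper hs hs'

/-- uniqueness of the multiplicity -/
lemma isMultAt_unique {n : ℕ} {v u : Equiv.Perm (Fin n)} {e e' : ℝ} (h : IsMultAt v u e)
    (h' : IsMultAt v u e') : e = e' := by
  obtain ⟨_, he, d, hd⟩ := h
  obtain ⟨_, he', d', hd'⟩ := h'
  wlog hdd : d ≤ d' generalizing e e' d d'
  · exact (this he' d' hd' he d hd (by omega)).symm
  rcases hdd.eq_or_lt with rfl | hlt
  · exact tendsto_nhds_unique hd hd'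
  · exfalso
    have h1 : Tendsto (fun k : ℕ => ((d'.factorial : ℝ) / d.factorial) *
        ((d.factorial : ℝ) * (hilbertSamuelAt v u k : ℝ) / (k : ℝ) ^ d) *
          (1 / (k : ℝ) ^ (d' - d))) atTop (𝓝 (((d'.factorial : ℝ) / d.factorial) * e * 0)) := by
      apply Tendsto.mul (Tendsto.const_mul _ hd)
      apply Tendsto.div_atTop tendsto_const_nhds
      exact (tendsto_pow_atTop (by omega)).comp tendsto_natCast_atTop_atTop
    rw [mul_zero] at h1
    have h2 : Tendsto (fun k : ℕ => (d'.factorial : ℝ) * (hilbertSamuelAt v u k : ℝ) /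
        (k : ℝ) ^ d') atTop (𝓝 0) := by
      refine h1.congr' ?_
      filter_upwards [eventually_gt_atTop 0] with k hk
      have hk' : (k : ℝ) ≠ 0 := by positivity
      have : (k : ℝ) ^ d' = (k : ℝ) ^ d * (k : ℝ) ^ (d' - d) := by
        rw [← pow_add, Nat.add_sub_cancel' hdd]
      rw [this]
      have : (d.factorial : ℝ) ≠ 0 := by positivity
      field_simp
    have := tendsto_nhds_unique hd' h2
    exact he'.ne' this

end Pool.Agent.X326.SM
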