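import Pool.Agent.X326.SM.Comb
import Pool.Agent.X326.SM.Ord

/-!
# The ideal of the Schubert variety `X_w`, `w = 4567312`, in the chart around `e_u`
-/

namespace Pool.Agent.X326.SM

open MvPolynomial Matrix Filter Topology
open Pool.Agent.TH151.SchubMult (Low lowMat dvd_supported aeval_fix permMat BwB permMat_apply
  permMat_inv permMat_det_ne inv_mem_BwB BwB_zero bruhat wperm wperm_fam wperm_val cell_eq IsFam)

lemma permMat_mul {n : ℕ} (u : Equiv.Perm (Fin n)) (M : Matrix (Fin n) (Fin n) ℂ) (i j : Fin n) :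
    (permMat u * M) i j = M (u⁻¹ i) j := by
  rw [mul_apply, Finset.sum_eq_single (u⁻¹ i)]
  · rw [permMat_apply, if_pos (by simp), one_mul]
  · intro k _ hk
    rw [permMat_apply, if_neg, zero_mul]
    intro h
    apply hk
    rw [h]; simp
  · intro h; exact absurd (Finset.mem_univ _) h

lemma permMat_mul_inv {n : ℕ} (u : Equiv.Perm (Fin n)) (M : Matrix (Fin n) (Fin n) ℂ)
    (i j : Fin n) : (permMat u * M)⁻¹ i j = M⁻¹ i (u⁻¹ j) := by
  rw [Matrix.mul_inv_rev, permMat_inv, mul_apply, Finset.sum_eq_single (u⁻¹ j)]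
  · rw [permMat_apply, if_pos rfl, mul_one]
  · intro k _ hk
    rw [permMat_apply, if_neg hk, mul_zero]
  · intro h; exact absurd (Finset.mem_univ _) h

lemma app_inv {n : ℕ} (u : Equiv.Perm (Fin n)) (i : Fin n) : u (u⁻¹ i) = i := by simp

lemma app_inv2 {n : ℕ} (u : Equiv.Perm (Fin n)) (i : Fin n) : u⁻¹ (u i) = i := by simp

/-- `w = 4567312` -/
noncomputable def wbig : Equiv.Perm (Fin 7) := wperm 6 3 (by norm_num) (by norm_num) le_rfl

lemma wbig_fam : IsFam 6 3 wbig := wperm_fam (by norm_num) (by norm_num) le_rfl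

variable {u : Equiv.Perm (Fin 7)}

lemma Ycol_ne (u : Equiv.Perm (Fin 7)) {a : Fin (6 + 1)} (h : a ≤ 6) :
    Y (EU u) (6 : Fin (6 + 1)) a ≠ 0 := by
  apply Y_ne_zero _ h
  intro a ha
  rcases c1 u a ha with h | ⟨l, l', h, h', h1, h2, h3, h4⟩
  · exact ⟨6, ha, le_rfl, h⟩
  · exact ⟨l, h, (h1.trans h2).le, h3⟩

lemma Ycol5_ne (u : Equiv.Perm (Fin 7)) {a : Fin (6 + 1)} (h : a ≤ 5) :
    Y (EU u) (5 : Fin (6 + 1)) a ≠ 0 := by
  apply Y_ne_zero _ h
  intro a ha
  obtain ⟨l, h1, h2, h3⟩ := c2 u a ha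
  exact ⟨l, h1, h2, h3⟩

lemma Yirr (u : Equiv.Perm (Fin 7)) {a : Fin (6 + 1)} (h : a < 6) :
    Irreducible (Y (EU u) (6 : Fin (6 + 1)) a) := by
  apply Y_irreducible (fun a ha => Ycol_ne u ha) _ h
  intro a ha
  rcases c1 u a ha with h | ⟨l, l', h, h', h1, h2, h3, h4⟩
  · exact Or.inl h
  · exact Or.inr ⟨l, l', h, h', h1, h2, h3, h4⟩

/-- the equation of `X_w` in the chart -/
noncomputable def Fu (u : Equiv.Perm (Fin 7)) : RE (EU u) := Y (EU u) (6 : Fin (6 + 1)) (u⁻¹ 0)

lemma inv0_lt (hu : Good u) : u⁻¹ 0 < (6 : Fin (6 + 1)) := by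
  have h : u⁻¹ 0 ≠ 6 := by
    intro h
    apply hu.h2
    rw [← h]; simp
  exact lt_of_le_of_ne (Fin.le_last _) h

lemma Fu_irr (hu : Good u) : Irreducible (Fu u) := Yirr u (inv0_lt hu)

lemma Fu_not_dvd_Y1 (hu : Good u) : ¬ Fu u ∣ Y (EU u) (6 : Fin (6 + 1)) (u⁻¹ 1) := by
  have h0 := inv0_lt hu
  have hne : u⁻¹ 0 ≠ u⁻¹ 1 := by
    intro h
    have := (u⁻¹).injective h
    exact absurd this (by decide)
  rcases lt_or_gt_of_ne hne with h | h
  · exact not_dvd_of_col h0.ne' h (Ycol_ne u (Fin.le_last _))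
  · intro hd
    have h1 : u⁻¹ 1 < (6 : Fin (6 + 1)) := h.trans h0
    have hass := (Fu_irr hu).associated_of_dvd (Yirr u h1) hd
    exact not_dvd_of_col h1.ne' h (Ycol_ne u (Fin.le_last _)) hass.symm.dvd

lemma Fu_not_dvd_Y5 (hu : Good u) : ¬ Fu u ∣ Y (EU u) (5 : Fin (6 + 1)) (u⁻¹ 0) := by
  intro h
  have h0 := inv0_lt hu
  have h5 : u⁻¹ 0 ≤ (5 : Fin (6 + 1)) := by
    rw [Fin.lt_def] at h0
    rw [Fin.le_def]
    have e1 : ((6 : Fin (6 + 1)) : ℕ) = 6 := rfl
    have e2 : ((5 : Fin (6 + 1)) : ℕ) = 5 := rfl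
    omega
  have h2 : Fu u ∈ supported ℂ {q : Edge (EU u) | q.1.1.1 < (6 : Fin (6 + 1))} := by
    apply dvd_supported (Ycol5_ne u h5) h
    refine supported_mono (fun p hp => ?_) (Y_rows (5 : Fin (6 + 1)) (u⁻¹ 0))
    have hp' : p.1.1.1 ≤ (5 : Fin (6 + 1)) := hp
    have h56 : (5 : Fin (6 + 1)) < 6 := by decide
    exact lt_of_le_of_lt hp' h56
  have h3 := rhoR_fix h2
  rw [Fu, rhoR_Y_zero h0.ne'] at h3
  exact Ycol_ne u (Fin.le_last _) h3.symm

lemma Fu_not_dvd_X (hu : Good u) (p : Edge (EU u)) (hp : p.1.1.2.1 ≤ 3) : ¬ Fu u ∣ X p := by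
  intro h
  have h0 := inv0_lt hu
  have hXp : Irreducible (X p : RE (EU u)) := (X_prime (R := ℂ)).irreducible
  by_cases hc : p.1.1.2 = u⁻¹ 0
  · obtain ⟨l, hl1, hl2, hl3⟩ := c4 u p.1.1.2 hp p.1.1.1
    rw [hc] at hl1 hl3
    obtain ⟨g, hg⟩ := h
    have hgu : IsUnit g := by
      rcases hXp.isUnit_or_isUnit hg with h | h
      · exact absurd h (Fu_irr hu).not_isUnit
      · exact h
    have h1 := congrArg (rho (EU u) (u⁻¹ 0) l) hg
    rw [map_mul, Fu, rho_Y h0.ne' hl1 hl3] at h1
    have h2 : rho (EU u) (u⁻¹ 0) l (X p) = 0 := by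
      rw [rho, aeval_X, if_pos hc, if_neg hl2.symm]
    rw [h2] at h1
    have h3 := (hgu.map (rho (EU u) (u⁻¹ 0) l)).ne_zero
    have h4 : - Y (EU u) (6 : Fin (6 + 1)) l ≠ 0 := neg_ne_zero.2 (Ycol_ne u (Fin.le_last _))
    exact mul_ne_zero h4 h3 h1.symm
  · have h1 : rho (EU u) (u⁻¹ 0) (u⁻¹ 0) (Fu u) ∣ rho (EU u) (u⁻¹ 0) (u⁻¹ 0) (X p) := map_dvd _ h
    rw [Fu, rho_Y_zero h0.ne', zero_dvd_iff, rho, aeval_X, if_neg hc] at h1
    exact hXp.ne_zero h1

/-- the row, in the chart, of the entry `(j + 3, j)` -/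
noncomputable def rr (u : Equiv.Perm (Fin 7)) (j : Fin 7) : Fin 7 :=
  if h : j.1 + 3 < 7 then u⁻¹ ⟨j.1 + 3, h⟩ else 0

/-- product of the variables in the positions `(rr j, j)` -/
noncomputable def hh (u : Equiv.Perm (Fin 7)) : RE (EU u) :=
  ∏ j : Fin 7, if h : j < rr u j then ext0 (EU u) (fun p => (X p : RE (EU u))) ⟨(rr u j, j), h⟩
    else 1

lemma rr_edge (u : Equiv.Perm (Fin 7)) (j : Fin 7) (h : j < rr u j) :
    EU u ⟨(rr u j, j), h⟩ ∧ j.1 ≤ 3 := by
  by_cases hj : j.1 + 3 < 7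
  · refine ⟨?_, by omega⟩
    unfold EU
    simp only
    rw [rr, dif_pos hj]
    simp
  · exfalso
    rw [rr, dif_neg hj] at h
    exact absurd h (not_lt.2 (Fin.zero_le _))

lemma Fu_not_dvd_hh (hu : Good u) : ¬ Fu u ∣ hh u := by
  intro h
  have hp : Prime (Fu u) := (Fu_irr hu).prime
  rw [hh] at h
  obtain ⟨j, _, hj⟩ := hp.exists_mem_finset_dvd h
  split_ifs at hj with h'
  · rw [ext0, dif_pos (rr_edge u j h').1] at hj
    exact Fu_not_dvd_X hu _ (rr_edge u j h').2 hj
  · exact hp.not_isUnit (isUnit_of_dvd_one hj)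

lemma lowMat_eq {x : Low (6 + 1) → ℂ} : lowMat x = genMat x := rfl

lemma ext0_restrict {x : Low (6 + 1) → ℂ} (hx : ∀ p, ¬ EU u p → x p = 0) :
    ext0 (EU u) (fun q : Edge (EU u) => x q.1) = x := by
  funext p
  rw [ext0]
  split_ifs with h
  · rfl
  · rw [hx p h]

/-- the points of the Schubert variety -/
lemma zeros_of_mem {x : Low (6 + 1) → ℂ} (hx : permMat u * lowMat x ∈ BwB wbig) :
    (∀ i j : Fin (6 + 1), j.1 + 3 < (u i).1 → genMat x i j = 0) ∧
      (genMat x)⁻¹ (6 : Fin (6 + 1)) (u⁻¹ 0) = 0 := by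
  constructor
  · intro i j hij
    have h1 := (BwB_zero hx (i0 := u i) (j0 := j)).2 (by
      intro j' hj'
      rw [Fin.le_def] at hj'
      rw [Fin.lt_def]
      have := (u i).2
      rw [wbig_fam.h1 j' (by omega)]
      omega) _ le_rfl _ le_rfl
    rw [permMat_mul, app_inv2] at h1
    exact h1
  · have h2 := (BwB_zero (inv_mem_BwB hx) (i0 := (6 : Fin (6 + 1))) (j0 := 0)).2 (by
      intro j hj
      have hj' : j = 0 := le_antisymm hj (Fin.zero_le _)
      rw [hj']
      have h3 : wbig (5 : Fin (6 + 1)) = 0 :=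
        Fin.ext (by rw [wbig_fam.h2 _ rfl]; rfl)
      have h4 : wbig⁻¹ 0 = (5 : Fin (6 + 1)) := by
        rw [← h3]; simp
      rw [h4]
      decide) _ le_rfl _ le_rfl
    rw [permMat_mul_inv] at h2
    exact h2

lemma good_of_mem {x : Low (6 + 1) → ℂ} (hx : permMat u * lowMat x ∈ BwB wbig) : Good u := by
  obtain ⟨h1, h2⟩ := zeros_of_mem hx
  constructor
  · intro j
    by_contra hcon
    have := h1 j j (not_le.1 hcon)
    rw [genMat_diag] at this
    exact one_ne_zero this
  · intro h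
    have h3 : u⁻¹ 0 = 6 := by rw [← h]; simp
    rw [h3, inv_diag] at h2
    exact one_ne_zero h2

/-- the ideal of the Schubert variety in the chart around `e_u` -/
lemma chartIdeal_eq (hu : Good u) :
    chartIdeal wbig u = Ideal.comap (phi (EU u)) (Ideal.span {Fu u}) := by
  have hprime : Prime (Fu u) := (Fu_irr hu).prime
  apply le_antisymm
  · intro p hp
    rw [Ideal.mem_comap, Ideal.mem_span_singleton]
    set H : RE (EU u) := hh u * Y (EU u) (6 : Fin (6 + 1)) (u⁻¹ 1) *
      Y (EU u) (5 : Fin (6 + 1)) (u⁻¹ 0) with hH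
    have hprimeI : (Ideal.span {Fu u}).IsPrime :=
      (Ideal.span_singleton_prime (Fu_irr hu).ne_zero).2 hprime
    have key : H * phi (EU u) p ∈ Ideal.span {Fu u} := by
      rw [← IsPrime.vanishingIdeal_zeroLocus (K := ℂ) (Ideal.span {Fu u})]
      rw [mem_vanishingIdeal_iff]
      intro z hz
      have hFz : aeval z (Fu u) = 0 := hz _ (Ideal.subset_span rfl)
      by_cases hHz : aeval z H = 0
      · rw [map_mul, hHz, zero_mul]
      rw [hH, map_mul, map_mul] at hHz
      have hHz1 : aeval z (hh u) ≠ 0 := left_ne_zero_of_mul (left_ne_zero_of_mul hHz)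
      have hHz2 : aeval z (Y (EU u) (6 : Fin (6 + 1)) (u⁻¹ 1)) ≠ 0 :=
        right_ne_zero_of_mul (left_ne_zero_of_mul hHz)
      have hHz3 : aeval z (Y (EU u) (5 : Fin (6 + 1)) (u⁻¹ 0)) ≠ 0 := right_ne_zero_of_mul hHz
      -- the point
      set x : Low (6 + 1) → ℂ := ext0 (EU u) z with hx
      have hx0 : ∀ p : Low (6 + 1), ¬ EU u p → x p = 0 := by
        intro p hp
        rw [hx, ext0, dif_neg hp]
      have hxz : (fun q : Edge (EU u) => x q.1) = z := by
        funext q
        rw [hx, ext0, dif_pos q.2]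
      have hmem : permMat u * lowMat x ∈ BwB wbig := by
        obtain ⟨v, hv⟩ := bruhat (M := permMat u * lowMat x) (by
          rw [det_mul, lowMat_eq, genMat_det, mul_one]; exact permMat_det_ne u)
        have hvw : v = wbig := by
          apply cell_eq (N := 6) (b := 3) (by norm_num) le_rfl (by norm_num) wbig_fam hv
          · intro i j hij
            rw [permMat_mul, lowMat_eq, genMat_apply]
            by_cases h : j < u⁻¹ i
            · rw [dif_pos h]
              apply hx0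
              intro hE
              have hE' : (u (u⁻¹ i)).1 ≤ j.1 + 3 := hE
              rw [app_inv] at hE'
              omega
            · rw [dif_neg h, if_neg]
              intro h'
              have h1 := hu.h1 (u⁻¹ i)
              rw [app_inv, h'] at h1
              omega
          · intro i j hij
            rw [permMat_mul, lowMat_eq, genMat_apply]
            have hi := i.2
            have hr : rr u j = u⁻¹ i := by
              rw [rr, dif_pos (by omega)]
              congr 1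
              exact Fin.ext hij.symm
            have hge : j ≤ u⁻¹ i := by
              have h1 := hu.h1 (u⁻¹ i)
              rw [app_inv] at h1
              rw [Fin.le_def]
              omega
            rcases hge.lt_or_eq with hlt | heq
            · rw [dif_pos hlt]
              rw [hh, map_prod, Finset.prod_ne_zero_iff] at hHz1
              have h2 := hHz1 j (Finset.mem_univ _)
              have hlt' : j < rr u j := by rw [hr]; exact hlt
              have hE := (rr_edge u j hlt').1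
              rw [dif_pos hlt', ext0, dif_pos hE, aeval_X] at h2
              rw [hx]
              have h3 : ext0 (EU u) z ⟨(rr u j, j), hlt'⟩ ≠ 0 := by
                rw [ext0, dif_pos hE]; exact h2
              convert h3 using 4
              exact hr.symm
            · rw [dif_neg (by rw [← heq]; exact lt_irrefl _), if_pos heq.symm]
              exact one_ne_zero
          · rw [permMat_mul_inv, lowMat_eq, hx, ← Y_eval]
            exact hFz
          · intro i hi
            rw [permMat_mul_inv, lowMat_eq, hx, ← Y_eval]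
            have : i = (5 : Fin (6 + 1)) := Fin.ext (by
              have e2 : ((5 : Fin (6 + 1)) : ℕ) = 5 := rfl
              omega)
            rw [this]
            exact hHz3
          · intro j hj
            rw [permMat_mul_inv, lowMat_eq, hx, ← Y_eval]
            have : j = (1 : Fin (6 + 1)) := Fin.ext hj
            rw [this]
            exact hHz2
        rwa [hvw] at hv
      have h1 : aeval x p = 0 := hp x hmem
      rw [map_mul, ← hxz, aeval_phi hx0, h1, mul_zero]
    rw [Ideal.mem_span_singleton] at key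
    rcases hprime.dvd_or_dvd key with h | h
    · exfalso
      rw [hH] at h
      rcases hprime.dvd_or_dvd h with h | h
      · rcases hprime.dvd_or_dvd h with h | h
        · exact Fu_not_dvd_hh hu h
        · exact Fu_not_dvd_Y1 hu h
      · exact Fu_not_dvd_Y5 hu h
    · exact h
  · intro p hp
    rw [Ideal.mem_comap, Ideal.mem_span_singleton] at hp
    obtain ⟨q, hq⟩ := hp
    intro x hx
    have hx' : permMat u * lowMat x ∈ BwB wbig := hx
    obtain ⟨hz1, hz2⟩ := zeros_of_mem hx'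
    have hx0 : ∀ p : Low (6 + 1), ¬ EU u p → x p = 0 := by
      intro p hp
      have h1 := hz1 p.1.1 p.1.2 (not_le.1 hp)
      rw [genMat_apply, dif_pos p.2] at h1
      exact h1
    rw [← aeval_phi hx0, hq, map_mul, Fu, Y_eval, ext0_restrict hx0, hz2, zero_mul]

lemma not_pointMem_of_empty {n : ℕ} {v u : Equiv.Perm (Fin n)}
    (h : ∀ x : Low n → ℂ, permMat u * lowMat x ∉ BwB v) : ¬ PointMem v u := by
  intro hmem
  have h1 : (1 : MvPolynomial (Low n) ℂ) ∈ chartIdeal v u := by
    intro x hx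
    exact absurd hx (h x)
  have h2 := hmem h1
  have h3 := (mem_pow_idealOfVars_iff' (σ := Low n) (R := ℂ) 1 1).1 (by rw [pow_one]; exact h2) 0
    (by simp)
  simp at h3

/-- every point `e_u` of `X_w` is singular of multiplicity at most `2`, or smooth -/
theorem wbig_mult (u : Equiv.Perm (Fin 7)) (h : PointMem wbig u) :
    IsMultAt wbig u 1 ∨ IsMultAt wbig u 2 := by
  have hu : Good u := by
    by_contra hcon
    exact not_pointMem_of_empty (fun x hx => hcon (good_of_mem hx)) h
  have h0 := inv0_lt hu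
  have hc3 := c3 u (u⁻¹ 0) h0
  have hne : Nonempty (Edge (EU u)) := by
    rcases hc3 with h | ⟨l, h1, h2, h3, h4⟩
    · exact ⟨⟨⟨(6, u⁻¹ 0), h0⟩, h⟩⟩
    · exact ⟨⟨⟨(l, u⁻¹ 0), h1⟩, h3⟩⟩
  obtain ⟨s, hs1, hs2, hs3, hs4⟩ := isMultAt_of (N := 6) (chartIdeal_eq hu) (Fu_irr hu).ne_zero
    (Y_mem h0.ne')
  have hs5 : s < 3 := by
    by_contra hcon
    have h3 : Fu u ∈ idealOfVars (Edge (EU u)) ℂ ^ 3 := Ideal.pow_le_pow_right (by omega) hs2
    rcases hc3 with h | ⟨l, h1, h2, h3', h4⟩
    · exact order_one h0 h h3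
    · exact order_two h1 h2 h3' h4 h3
  have : s = 1 ∨ s = 2 := by omega
  rcases this with rfl | rfl
  · left; simpa using hs4
  · right; simpa using hs4

end Pool.Agent.X326.SM
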