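import Pool.Agent.X326.SM.Defs

/-!
# The allowed positions in the chart around `e_u`
-/

namespace Pool.Agent.X326.SM

open Pool.Agent.TH151.SchubMult (Low)

/-- the positions at which the matrices of the chart around `e_u` need not vanish -/
def EU (u : Equiv.Perm (Fin 7)) (p : Low (6 + 1)) : Prop := (u p.1.1).1 ≤ p.1.2.1 + 3

instance (u : Equiv.Perm (Fin 7)) : DecidablePred (EU u) := fun p => by
  unfold EU; infer_instance

/-- `e_u ∈ X_w` for `w = 4567312` -/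
structure Good (u : Equiv.Perm (Fin 7)) : Prop where
  h1 : ∀ j, (u j).1 ≤ j.1 + 3
  h2 : u 6 ≠ 0

lemma vals (u : Equiv.Perm (Fin 7)) : ∃ x1 x2 x3 x4 x5 x6 : ℕ,
    (u 1).1 = x1 ∧ (u 2).1 = x2 ∧ (u 3).1 = x3 ∧ (u 4).1 = x4 ∧ (u 5).1 = x5 ∧ (u 6).1 = x6 ∧
    x1 < 7 ∧ x2 < 7 ∧ x3 < 7 ∧ x4 < 7 ∧ x5 < 7 ∧ x6 < 7 ∧
    x1 ≠ x2 ∧ x1 ≠ x3 ∧ x1 ≠ x4 ∧ x1 ≠ x5 ∧ x1 ≠ x6 ∧ x2 ≠ x3 ∧ x2 ≠ x4 ∧ x2 ≠ x5 ∧ x2 ≠ x6 ∧
    x3 ≠ x4 ∧ x3 ≠ x5 ∧ x3 ≠ x6 ∧ x4 ≠ x5 ∧ x4 ≠ x6 ∧ x5 ≠ x6 := by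
  have hne : ∀ i j : Fin 7, i ≠ j → (u i).1 ≠ (u j).1 := by
    intro i j hij h
    exact hij (u.injective (Fin.ext h))
  refine ⟨_, _, _, _, _, _, rfl, rfl, rfl, rfl, rfl, rfl, (u 1).2, (u 2).2, (u 3).2, (u 4).2,
    (u 5).2, (u 6).2, ?_, ?_, ?_, ?_, ?_, ?_, ?_, ?_, ?_, ?_, ?_, ?_, ?_, ?_, ?_⟩ <;>
    apply hne <;> decide

lemma comb0 {x1 x2 x3 x4 x6 : ℕ} (h1 : x1 < 7) (h2 : x2 < 7) (h3 : x3 < 7) (h4 : x4 < 7)
    (h6 : x6 < 7) (h12 : x1 ≠ x2) (h13 : x1 ≠ x3) (h14 : x1 ≠ x4) (h16 : x1 ≠ x6) (h23 : x2 ≠ x3)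
    (h24 : x2 ≠ x4) (h26 : x2 ≠ x6) (h34 : x3 ≠ x4) (h36 : x3 ≠ x6) (h46 : x4 ≠ x6)
    (h : 3 < x6) :
    (x1 ≤ 3 ∧ x2 ≤ 3) ∨ (x1 ≤ 3 ∧ x3 ≤ 3) ∨ (x1 ≤ 3 ∧ x4 ≤ 3) ∨ (x2 ≤ 3 ∧ x3 ≤ 3) ∨
      (x2 ≤ 3 ∧ x4 ≤ 3) ∨ (x3 ≤ 3 ∧ x4 ≤ 3) := by
  omega

lemma pig {a b c d : ℕ} (ha : a < 7) (hb : b < 7) (hc : c < 7) (hd : d < 7) (hab : a ≠ b)
    (hac : a ≠ c) (had : a ≠ d) (hbc : b ≠ c) (hbd : b ≠ d) (hcd : c ≠ d) :
    a ≤ 3 ∨ b ≤ 3 ∨ c ≤ 3 ∨ d ≤ 3 := by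
  omega

/-- the edge `(l, a)` is allowed -/
def Al (u : Equiv.Perm (Fin 7)) (l a : Fin 7) : Prop := (u l).1 ≤ a.1 + 3

lemma c1 (u : Equiv.Perm (Fin 7)) (a : Fin 7) (ha : a < 6) :
    Al u 6 a ∨ ∃ l l' : Fin 7, a < l ∧ a < l' ∧ l < l' ∧ l' < 6 ∧ Al u l a ∧ Al u l' a := by
  obtain ⟨x1, x2, x3, x4, x5, x6, e1, e2, e3, e4, e5, e6, b1, b2, b3, b4, b5, b6, n12, n13, n14,
    n15, n16, n23, n24, n25, n26, n34, n35, n36, n45, n46, n56⟩ := vals u
  by_cases h : x6 ≤ a.1 + 3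
  · left; unfold Al; rw [e6]; exact h
  right
  have ha3 : a.1 < 3 := by omega
  have key : ∀ l l' : Fin 7, a < l → l < l' → l' < 6 → (u l).1 ≤ a.1 + 3 → (u l').1 ≤ a.1 + 3 →
      ∃ l l' : Fin 7, a < l ∧ a < l' ∧ l < l' ∧ l' < 6 ∧ Al u l a ∧ Al u l' a :=
    fun l l' h1 h2 h3 h4 h5 => ⟨l, l', h1, h1.trans h2, h2, h3, h4, h5⟩
  interval_cases hav : a.1
  · have ha0 : a = 0 := Fin.ext hav
    subst ha0
    rcases comb0 b1 b2 b3 b4 b6 n12 n13 n14 n16 n23 n24 n26 n34 n36 n46 (by omega) with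
      h | h | h | h | h | h
    · exact key 1 2 (by decide) (by decide) (by decide) (by rw [e1]; exact h.1) (by rw [e2]; exact h.2)
    · exact key 1 3 (by decide) (by decide) (by decide) (by rw [e1]; exact h.1) (by rw [e3]; exact h.2)
    · exact key 1 4 (by decide) (by decide) (by decide) (by rw [e1]; exact h.1) (by rw [e4]; exact h.2)
    · exact key 2 3 (by decide) (by decide) (by decide) (by rw [e2]; exact h.1) (by rw [e3]; exact h.2)
    · exact key 2 4 (by decide) (by decide) (by decide) (by rw [e2]; exact h.1) (by rw [e4]; exact h.2)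
    · exact key 3 4 (by decide) (by decide) (by decide) (by rw [e3]; exact h.1) (by rw [e4]; exact h.2)
  · have ha0 : a = 1 := Fin.ext hav
    subst ha0
    by_cases h3 : x3 ≤ 4
    · by_cases h4 : x4 ≤ 4
      · exact key 3 4 (by decide) (by decide) (by decide) (by rw [e3]; exact h3)
          (by rw [e4]; exact h4)
      · exact key 3 5 (by decide) (by decide) (by decide) (by rw [e3]; exact h3)
          (by rw [e5]; omega)
    · exact key 4 5 (by decide) (by decide) (by decide) (by rw [e4]; omega)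
          (by rw [e5]; omega)
  · have ha0 : a = 2 := Fin.ext hav
    subst ha0
    exact key 3 4 (by decide) (by decide) (by decide) (by rw [e3]; omega)
          (by rw [e4]; omega)

lemma c3 (u : Equiv.Perm (Fin 7)) (a : Fin 7) (ha : a < 6) :
    Al u 6 a ∨ ∃ l : Fin 7, a < l ∧ l < 6 ∧ Al u l a ∧ Al u 6 l := by
  obtain ⟨x1, x2, x3, x4, x5, x6, e1, e2, e3, e4, e5, e6, b1, b2, b3, b4, b5, b6, n12, n13, n14,
    n15, n16, n23, n24, n25, n26, n34, n35, n36, n45, n46, n56⟩ := vals u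
  by_cases h : x6 ≤ a.1 + 3
  · left; unfold Al; rw [e6]; exact h
  right
  have ha3 : a.1 < 3 := by omega
  have key : ∀ l : Fin 7, a < l → l < 6 → 3 ≤ l.1 → (u l).1 ≤ a.1 + 3 →
      ∃ l : Fin 7, a < l ∧ l < 6 ∧ Al u l a ∧ Al u 6 l := by
    intro l h1 h2 h3 h4
    refine ⟨l, h1, h2, h4, ?_⟩
    unfold Al
    rw [e6]
    omega
  have h345 : x3 ≤ a.1 + 3 ∨ x4 ≤ a.1 + 3 ∨ x5 ≤ a.1 + 3 := by omega
  have hal : ∀ l : Fin 7, 3 ≤ l.1 → a < l := by
    intro l hl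
    rw [Fin.lt_def]; omega
  rcases h345 with h' | h' | h'
  · exact key 3 (hal _ (by decide)) (by decide) (by decide) (by rw [e3]; exact h')
  · exact key 4 (hal _ (by decide)) (by decide) (by decide) (by rw [e4]; exact h')
  · exact key 5 (hal _ (by decide)) (by decide) (by decide) (by rw [e5]; exact h')

lemma c2 (u : Equiv.Perm (Fin 7)) (a : Fin 7) (ha : a < 5) :
    ∃ l : Fin 7, a < l ∧ l ≤ 5 ∧ Al u l a := by
  obtain ⟨x1, x2, x3, x4, x5, x6, e1, e2, e3, e4, e5, e6, b1, b2, b3, b4, b5, b6, n12, n13, n14,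
    n15, n16, n23, n24, n25, n26, n34, n35, n36, n45, n46, n56⟩ := vals u
  have ha5 : a.1 < 5 := ha
  interval_cases hav : a.1
  · have ha0 : a = 0 := Fin.ext hav
    subst ha0
    have : x1 ≤ 3 ∨ x2 ≤ 3 ∨ x3 ≤ 3 ∨ x4 ≤ 3 := by omega
    rcases this with h | h | h | h
    · exact ⟨1, by decide, by decide, by unfold Al; rw [e1]; exact h⟩
    · exact ⟨2, by decide, by decide, by unfold Al; rw [e2]; exact h⟩
    · exact ⟨3, by decide, by decide, by unfold Al; rw [e3]; exact h⟩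
    · exact ⟨4, by decide, by decide, by unfold Al; rw [e4]; exact h⟩
  · have ha0 : a = 1 := Fin.ext hav
    subst ha0
    have : x2 ≤ 4 ∨ x3 ≤ 4 ∨ x4 ≤ 4 := by omega
    rcases this with h | h | h
    · exact ⟨2, by decide, by decide, by unfold Al; rw [e2]; exact h⟩
    · exact ⟨3, by decide, by decide, by unfold Al; rw [e3]; exact h⟩
    · exact ⟨4, by decide, by decide, by unfold Al; rw [e4]; exact h⟩
  · have ha0 : a = 2 := Fin.ext hav
    subst ha0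
    have : x3 ≤ 5 ∨ x4 ≤ 5 := by omega
    rcases this with h | h
    · exact ⟨3, by decide, by decide, by unfold Al; rw [e3]; exact h⟩
    · exact ⟨4, by decide, by decide, by unfold Al; rw [e4]; exact h⟩
  · have ha0 : a = 3 := Fin.ext hav
    subst ha0
    exact ⟨4, by decide, by decide, by
      unfold Al; rw [e4]; have : ((3 : Fin 7) : ℕ) = 3 := rfl; omega⟩
  · have ha0 : a = 4 := Fin.ext hav
    subst ha0
    exact ⟨5, by decide, by decide, by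
      unfold Al; rw [e5]; have : ((4 : Fin 7) : ℕ) = 4 := rfl; omega⟩

lemma c4 (u : Equiv.Perm (Fin 7)) (a : Fin 7) (ha : a.1 ≤ 3) (r : Fin 7) :
    ∃ l : Fin 7, a < l ∧ l ≠ r ∧ Al u l a := by
  obtain ⟨x1, x2, x3, x4, x5, x6, e1, e2, e3, e4, e5, e6, b1, b2, b3, b4, b5, b6, n12, n13, n14,
    n15, n16, n23, n24, n25, n26, n34, n35, n36, n45, n46, n56⟩ := vals u
  have key : ∀ l l' : Fin 7, a < l → l < l' → (u l).1 ≤ a.1 + 3 → (u l').1 ≤ a.1 + 3 →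
      ∃ l : Fin 7, a < l ∧ l ≠ r ∧ Al u l a := by
    intro l l' h1 h2 h3 h4
    by_cases h : l = r
    · exact ⟨l', h1.trans h2, by rw [← h]; exact h2.ne', h4⟩
    · exact ⟨l, h1, h, h3⟩
  interval_cases hav : a.1
  · have ha0 : a = 0 := Fin.ext hav
    subst ha0
    by_cases h1 : x1 ≤ 3
    · rcases pig b2 b3 b4 b5 n23 n24 n25 n34 n35 n45 with h | h | h | h
      · exact key 1 2 (by decide) (by decide) (by rw [e1]; exact h1) (by rw [e2]; exact h)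
      · exact key 1 3 (by decide) (by decide) (by rw [e1]; exact h1) (by rw [e3]; exact h)
      · exact key 1 4 (by decide) (by decide) (by rw [e1]; exact h1) (by rw [e4]; exact h)
      · exact key 1 5 (by decide) (by decide) (by rw [e1]; exact h1) (by rw [e5]; exact h)
    by_cases h2 : x2 ≤ 3
    · rcases pig b1 b3 b4 b5 n13 n14 n15 n34 n35 n45 with h | h | h | h
      · exact absurd h h1
      · exact key 2 3 (by decide) (by decide) (by rw [e2]; exact h2) (by rw [e3]; exact h)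
      · exact key 2 4 (by decide) (by decide) (by rw [e2]; exact h2) (by rw [e4]; exact h)
      · exact key 2 5 (by decide) (by decide) (by rw [e2]; exact h2) (by rw [e5]; exact h)
    by_cases h3 : x3 ≤ 3
    · rcases pig b1 b2 b4 b5 n12 n14 n15 n24 n25 n45 with h | h | h | h
      · exact absurd h h1
      · exact absurd h h2
      · exact key 3 4 (by decide) (by decide) (by rw [e3]; exact h3) (by rw [e4]; exact h)
      · exact key 3 5 (by decide) (by decide) (by rw [e3]; exact h3) (by rw [e5]; exact h)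
    · exact key 4 5 (by decide) (by decide) (by rw [e4]; omega) (by rw [e5]; omega)
  · have ha0 : a = 1 := Fin.ext hav
    subst ha0
    have : (x2 ≤ 4 ∧ x3 ≤ 4) ∨ (x2 ≤ 4 ∧ x4 ≤ 4) ∨ (x2 ≤ 4 ∧ x5 ≤ 4) ∨
      (x3 ≤ 4 ∧ x4 ≤ 4) ∨ (x3 ≤ 4 ∧ x5 ≤ 4) ∨ (x4 ≤ 4 ∧ x5 ≤ 4) := by omega
    rcases this with h | h | h | h | h | h
    · exact key 2 3 (by decide) (by decide) (by rw [e2]; exact h.1) (by rw [e3]; exact h.2)
    · exact key 2 4 (by decide) (by decide) (by rw [e2]; exact h.1) (by rw [e4]; exact h.2)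
    · exact key 2 5 (by decide) (by decide) (by rw [e2]; exact h.1) (by rw [e5]; exact h.2)
    · exact key 3 4 (by decide) (by decide) (by rw [e3]; exact h.1) (by rw [e4]; exact h.2)
    · exact key 3 5 (by decide) (by decide) (by rw [e3]; exact h.1) (by rw [e5]; exact h.2)
    · exact key 4 5 (by decide) (by decide) (by rw [e4]; exact h.1) (by rw [e5]; exact h.2)
  · have ha0 : a = 2 := Fin.ext hav
    subst ha0
    have : (x3 ≤ 5 ∧ x4 ≤ 5) ∨ (x3 ≤ 5 ∧ x5 ≤ 5) ∨ (x4 ≤ 5 ∧ x5 ≤ 5) := by omega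
    rcases this with h | h | h
    · exact key 3 4 (by decide) (by decide) (by rw [e3]; exact h.1) (by rw [e4]; exact h.2)
    · exact key 3 5 (by decide) (by decide) (by rw [e3]; exact h.1) (by rw [e5]; exact h.2)
    · exact key 4 5 (by decide) (by decide) (by rw [e4]; exact h.1) (by rw [e5]; exact h.2)
  · have ha0 : a = 3 := Fin.ext hav
    subst ha0
    exact key 4 5 (by decide) (by decide)
      (by rw [e4]; have : ((3 : Fin 7) : ℕ) = 3 := rfl; omega)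
      (by rw [e5]; have : ((3 : Fin 7) : ℕ) = 3 := rfl; omega)

end Pool.Agent.X326.SM
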