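import Pool.Agent.TH151.SMain

/-!
# The last row of the inverse of a lower unitriangular matrix with prescribed zeros
-/

namespace Pool.Agent.X326.SM

open MvPolynomial Matrix
open Pool.Agent.TH151.SchubMult (Low lowMat dvd_supported aeval_fix)

variable {N : ℕ}

/-- lower unitriangular matrix -/
def genMat {A : Type*} [Zero A] [One A] (x : Low (N + 1) → A) :
    Matrix (Fin (N + 1)) (Fin (N + 1)) A :=
  Matrix.of fun i j => if h : j < i then x ⟨(i, j), h⟩ else if i = j then 1 else 0

section general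

variable {A : Type*} [CommRing A] (x : Low (N + 1) → A)

lemma genMat_apply (i j : Fin (N + 1)) : genMat x i j =
    if h : j < i then x ⟨(i, j), h⟩ else if i = j then 1 else 0 := rfl

lemma genMat_upper {i j : Fin (N + 1)} (h : i < j) : genMat x i j = 0 := by
  rw [genMat_apply, dif_neg (not_lt.2 h.le), if_neg h.ne]

lemma genMat_diag (i : Fin (N + 1)) : genMat x i i = 1 := by
  rw [genMat_apply, dif_neg (lt_irrefl _), if_pos rfl]

lemma genMat_det : (genMat x).det = 1 := by
  rw [Matrix.det_of_isLowerTriangular (genMat x) (fun i j hij => genMat_upper x hij)]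
  simp [genMat_diag]

lemma genMat_inv_mul : (genMat x)⁻¹ * genMat x = 1 :=
  Matrix.nonsing_inv_mul _ (by rw [genMat_det]; exact isUnit_one)

lemma genMat_mul_inv : genMat x * (genMat x)⁻¹ = 1 :=
  Matrix.mul_nonsing_inv _ (by rw [genMat_det]; exact isUnit_one)

lemma row_rec (i j : Fin (N + 1)) : (genMat x)⁻¹ i j = (if i = j then 1 else 0) -
    ∑ l, if h : j < l then (genMat x)⁻¹ i l * x ⟨(l, j), h⟩ else 0 := by
  have h1 := congrFun (congrFun (genMat_inv_mul x) i) j
  rw [mul_apply, one_apply] at h1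
  rw [← h1, eq_sub_iff_add_eq]
  have h2 : ∀ l, (genMat x)⁻¹ i l * genMat x l j =
      (if h : j < l then (genMat x)⁻¹ i l * x ⟨(l, j), h⟩ else 0) +
        (if l = j then (genMat x)⁻¹ i j else 0) := by
    intro l
    rw [genMat_apply]
    by_cases h : j < l
    · rw [dif_pos h, dif_pos h, if_neg h.ne', add_zero]
    · rw [dif_neg h, dif_neg h, zero_add]
      by_cases h' : l = j
      · rw [if_pos h', if_pos h', h', mul_one]
      · rw [if_neg h', if_neg h', mul_zero]
  simp_rw [h2]
  rw [Finset.sum_add_distrib]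
  simp [add_comm]

lemma col_rec (i j : Fin (N + 1)) : (genMat x)⁻¹ i j = (if i = j then 1 else 0) -
    ∑ l, if h : l < i then x ⟨(i, l), h⟩ * (genMat x)⁻¹ l j else 0 := by
  have h1 := congrFun (congrFun (genMat_mul_inv x) i) j
  rw [mul_apply, one_apply] at h1
  rw [← h1, eq_sub_iff_add_eq]
  have h2 : ∀ l, genMat x i l * (genMat x)⁻¹ l j =
      (if h : l < i then x ⟨(i, l), h⟩ * (genMat x)⁻¹ l j else 0) +
        (if l = i then (genMat x)⁻¹ i j else 0) := by
    intro l
    rw [genMat_apply]
    by_cases h : l < i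
    · rw [dif_pos h, dif_pos h, if_neg h.ne, add_zero]
    · rw [dif_neg h, dif_neg h, zero_add]
      by_cases h' : l = i
      · rw [if_pos h', if_pos h'.symm, h', one_mul]
      · rw [if_neg h', if_neg (fun h => h' h.symm), zero_mul]
  simp_rw [h2]
  rw [Finset.sum_add_distrib]
  simp [add_comm]

lemma map_inv {B : Type*} [CommRing B] (f : A →+* B) (i j : Fin (N + 1)) :
    (genMat (fun p => f (x p)))⁻¹ i j = f ((genMat x)⁻¹ i j) := by
  have h1 : (genMat x).map f = genMat (fun p => f (x p)) := by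
    ext i j
    rw [map_apply, genMat_apply, genMat_apply]
    split_ifs <;> simp
  have h2 : (genMat (fun p => f (x p)))⁻¹ = ((genMat x)⁻¹).map f := by
    apply Matrix.inv_eq_left_inv
    rw [← h1, ← Matrix.map_mul, genMat_inv_mul, Matrix.map_one _ (map_zero f) (map_one f)]
  rw [h2, map_apply]

end general

variable (E : Low (N + 1) → Prop) [DecidablePred E]

/-- the positions which are not required to be zero -/
abbrev Edge : Type := {p : Low (N + 1) // E p}

/-- extension by zero -/
def ext0 {A : Type*} [Zero A] (z : Edge E → A) (p : Low (N + 1)) : A :=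
  if h : E p then z ⟨p, h⟩ else 0

/-- the polynomial ring in the allowed entries -/
abbrev RE : Type := MvPolynomial (Edge E) ℂ

/-- the inverse of the generic matrix -/
noncomputable def Y : Matrix (Fin (N + 1)) (Fin (N + 1)) (RE E) :=
  (genMat (ext0 E (fun p => (X p : RE E))))⁻¹

variable {E}

lemma Y_row (i j : Fin (N + 1)) : Y E i j = (if i = j then 1 else 0) -
    ∑ l, if h : j < l then Y E i l * ext0 E (fun p => (X p : RE E)) ⟨(l, j), h⟩ else 0 :=
  row_rec _ i j

lemma Y_col (i j : Fin (N + 1)) : Y E i j = (if i = j then 1 else 0) -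
    ∑ l, if h : l < i then ext0 E (fun p => (X p : RE E)) ⟨(i, l), h⟩ * Y E l j else 0 :=
  col_rec _ i j

lemma map_ext0 {A B : Type*} [CommRing A] [CommRing B] (f : A →+* B) (z : Edge E → A) :
    (fun p => f (ext0 E z p)) = ext0 E (fun p => f (z p)) := by
  funext p
  rw [ext0, ext0]
  split_ifs
  · rfl
  · exact map_zero f

lemma Y_eval {A : Type*} [CommRing A] [Algebra ℂ A] (z : Edge E → A) (i j : Fin (N + 1)) :
    aeval z (Y E i j) = (genMat (ext0 E z))⁻¹ i j := by
  have := map_inv (ext0 E (fun p => (X p : RE E))) (aeval z : RE E →ₐ[ℂ] A).toRingHom i j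
  rw [map_ext0] at this
  simp only [AlgHom.toRingHom_eq_coe, RingHom.coe_coe, aeval_X] at this
  exact this.symm

lemma ext0_mem {s : Set (Edge E)} (p : Low (N + 1)) (h : ∀ h : E p, (⟨p, h⟩ : Edge E) ∈ s) :
    ext0 E (fun p => (X p : RE E)) p ∈ supported ℂ s := by
  rw [ext0]
  split_ifs with h'
  · rw [X_mem_supported]
    exact h h'
  · exact Subalgebra.zero_mem _

lemma Y_cols (i j : Fin (N + 1)) : Y E i j ∈ supported ℂ {p : Edge E | j ≤ p.1.1.2} := by
  induction hk : N - j.1 using Nat.strong_induction_on generalizing j with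
  | _ k ih =>
  rw [Y_row]
  apply Subalgebra.sub_mem
  · split_ifs
    · exact Subalgebra.one_mem _
    · exact Subalgebra.zero_mem _
  · apply Subalgebra.sum_mem
    intro l _
    split_ifs with h
    · apply Subalgebra.mul_mem
      · have h1 : j.1 < l.1 := h
        have h2 := l.2
        have := ih (N - l.1) (by omega) l rfl
        exact supported_mono (fun p hp => h.le.trans hp) this
      · exact ext0_mem _ (fun _ => le_refl j)
    · exact Subalgebra.zero_mem _

lemma Y_rows (i j : Fin (N + 1)) : Y E i j ∈ supported ℂ {p : Edge E | p.1.1.1 ≤ i} := by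
  induction hk : i.1 using Nat.strong_induction_on generalizing i with
  | _ k ih =>
  rw [Y_col]
  apply Subalgebra.sub_mem
  · split_ifs
    · exact Subalgebra.one_mem _
    · exact Subalgebra.zero_mem _
  · apply Subalgebra.sum_mem
    intro l _
    split_ifs with h
    · apply Subalgebra.mul_mem
      · exact ext0_mem _ (fun _ => le_refl i)
      · have h1 : l.1 < i.1 := h
        have := ih l.1 (by omega) l rfl
        exact supported_mono (fun p hp => le_trans hp h.le) this
    · exact Subalgebra.zero_mem _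

/-- the column `c` is replaced by the basis vector `a` (by `0` if `a = c`) -/
noncomputable def rho (E : Low (N + 1) → Prop) [DecidablePred E] (c a : Fin (N + 1)) :
    RE E →ₐ[ℂ] RE E :=
  aeval (fun p => if p.1.1.2 = c then (if p.1.1.1 = a then 1 else 0) else X p)

/-- the row `c` is replaced by `0` -/
noncomputable def rhoR (E : Low (N + 1) → Prop) [DecidablePred E] (c : Fin (N + 1)) :
    RE E →ₐ[ℂ] RE E :=
  aeval (fun p => if p.1.1.1 = c then 0 else X p)

lemma rho_fix {c a : Fin (N + 1)} {p : RE E} (hp : p ∈ supported ℂ {q : Edge E | c < q.1.1.2}) :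
    rho E c a p = p := by
  apply aeval_fix hp
  intro i hi
  rw [if_neg]
  exact (ne_of_lt hi).symm

lemma rhoR_fix {c : Fin (N + 1)} {p : RE E} (hp : p ∈ supported ℂ {q : Edge E | q.1.1.1 < c}) :
    rhoR E c p = p := by
  apply aeval_fix hp
  intro i hi
  rw [if_neg]
  exact (ne_of_lt hi)

lemma rho_Y_zero {i c : Fin (N + 1)} (hic : i ≠ c) : rho E c c (Y E i c) = 0 := by
  rw [Y_row, if_neg hic, zero_sub, map_neg, map_sum, neg_eq_zero]
  apply Finset.sum_eq_zero
  intro l _
  split_ifs with h
  · rw [map_mul]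
    have : rho E c c (ext0 E (fun p => (X p : RE E)) (⟨(l, c), h⟩ : Low (N + 1))) = 0 := by
      rw [ext0]
      split_ifs
      · simp [rho, h.ne']
      · exact map_zero _
    rw [this, mul_zero]
  · exact map_zero _

lemma rho_Y {i c a : Fin (N + 1)} (hic : i ≠ c) (ha : c < a) (hE : E ⟨(a, c), ha⟩) :
    rho E c a (Y E i c) = - Y E i a := by
  rw [Y_row, if_neg hic, zero_sub, map_neg, map_sum, neg_inj]
  rw [Finset.sum_eq_single a]
  · rw [dif_pos ha, map_mul]
    have h1 : rho E c a (ext0 E (fun p => (X p : RE E)) (⟨(a, c), ha⟩ : Low (N + 1))) = 1 := by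
      rw [ext0, dif_pos hE]
      simp [rho]
    have h2 : rho E c a (Y E i a) = Y E i a := by
      apply rho_fix
      exact supported_mono (fun p hp => lt_of_lt_of_le ha hp) (Y_cols i a)
    rw [h1, h2, mul_one]
  · intro l _ hl
    split_ifs with h
    · rw [map_mul]
      have : rho E c a (ext0 E (fun p => (X p : RE E)) (⟨(l, c), h⟩ : Low (N + 1))) = 0 := by
        rw [ext0]
        split_ifs
        · simp [rho, hl]
        · exact map_zero _
      rw [this, mul_zero]
    · exact map_zero _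
  · intro h; exact absurd (Finset.mem_univ _) h

lemma rhoR_Y_zero {i j : Fin (N + 1)} (hij : i ≠ j) : rhoR E i (Y E i j) = 0 := by
  rw [Y_col, if_neg hij, zero_sub, map_neg, map_sum, neg_eq_zero]
  apply Finset.sum_eq_zero
  intro l _
  split_ifs with h
  · rw [map_mul]
    have : rhoR E i (ext0 E (fun p => (X p : RE E)) (⟨(i, l), h⟩ : Low (N + 1))) = 0 := by
      rw [ext0]
      split_ifs
      · simp [rhoR]
      · exact map_zero _
    rw [this, zero_mul]
  · exact map_zero _

lemma Y_upper {i j : Fin (N + 1)} (h : i < j) : Y E i j = 0 := by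
  induction hk : i.1 using Nat.strong_induction_on generalizing i with
  | _ k ih =>
  rw [Y_col, if_neg h.ne, zero_sub, neg_eq_zero]
  apply Finset.sum_eq_zero
  intro l _
  split_ifs with h'
  · have h1 : l.1 < i.1 := h'
    rw [ih l.1 (by omega) (h'.trans h) rfl, mul_zero]
  · rfl

lemma Y_diag (i : Fin (N + 1)) : Y E i i = 1 := by
  rw [Y_col, if_pos rfl, sub_eq_self]
  apply Finset.sum_eq_zero
  intro l _
  split_ifs with h'
  · rw [Y_upper h', mul_zero]
  · rfl

/-- `Y t a ≠ 0` if every vertex below `t` has an out-neighbour in `(a, t]`. -/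
lemma Y_ne_zero {t : Fin (N + 1)}
    (H : ∀ a : Fin (N + 1), a < t → ∃ l : Fin (N + 1), ∃ h : a < l, l ≤ t ∧ E ⟨(l, a), h⟩)
    {a : Fin (N + 1)} (h : a ≤ t) : Y E t a ≠ 0 := by
  induction hk : t.1 - a.1 using Nat.strong_induction_on generalizing a with
  | _ k ih =>
  rcases h.eq_or_lt with rfl | hlt
  · rw [Y_diag]; exact one_ne_zero
  · obtain ⟨l, hal, hlt', hE⟩ := H a hlt
    intro h0
    have h2 := rho_Y (E := E) (i := t) hlt.ne' hal hE
    rw [h0, map_zero] at h2
    have h3 : a.1 < l.1 := hal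
    have h4 : l.1 ≤ t.1 := hlt'
    exact ih (t.1 - l.1) (by omega) hlt' rfl (by rw [eq_comm, neg_eq_zero] at h2; exact h2)

lemma not_dvd_of_col {t a l : Fin (N + 1)} (hta : t ≠ a) (hal : a < l) (h0 : Y E t l ≠ 0)
    : ¬ Y E t a ∣ Y E t l := by
  intro h
  have h2 : Y E t l ∈ supported ℂ {q : Edge E | a < q.1.1.2} :=
    supported_mono (fun p hp => lt_of_lt_of_le hal hp) (Y_cols t l)
  have h3 : rho E a a (Y E t a) ∣ rho E a a (Y E t l) := map_dvd _ h
  rw [rho_Y_zero hta, rho_fix h2, zero_dvd_iff] at h3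
  exact h0 h3

/-- irreducibility of the path polynomials -/
lemma Y_irreducible {t : Fin (N + 1)} (hnz : ∀ a, a ≤ t → Y E t a ≠ 0)
    (H : ∀ a : Fin (N + 1), ∀ hat : a < t, E ⟨(t, a), hat⟩ ∨
      ∃ l l' : Fin (N + 1), ∃ h : a < l, ∃ h' : a < l', l < l' ∧ l' < t ∧
        E ⟨(l, a), h⟩ ∧ E ⟨(l', a), h'⟩)
    {a : Fin (N + 1)} (hat : a < t) : Irreducible (Y E t a) := by
  induction hk : t.1 - a.1 using Nat.strong_induction_on generalizing a with
  | _ k ih =>
  -- splitting off one variable
  have split : ∀ l : Fin (N + 1), ∀ h : a < l, ∀ hE : E ⟨(l, a), h⟩,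
      ∃ g : RE E, Y E t a = (- Y E t l) * X ⟨⟨(l, a), h⟩, hE⟩ + g ∧
        g ∈ supported ℂ {q : Edge E | q ≠ ⟨⟨(l, a), h⟩, hE⟩} := by
    intro l h hE
    refine ⟨Y E t a + Y E t l * X ⟨⟨(l, a), h⟩, hE⟩, by ring, ?_⟩
    have hg : Y E t a + Y E t l * X ⟨⟨(l, a), h⟩, hE⟩ = - ∑ m, if h' : m ≠ l ∧ a < m then
        Y E t m * ext0 E (fun p => (X p : RE E)) ⟨(m, a), h'.2⟩ else 0 := by
      rw [Y_row, if_neg hat.ne', zero_sub, ← Finset.add_sum_erase _ _ (Finset.mem_univ l),
        ← Finset.add_sum_erase Finset.univ _ (Finset.mem_univ l)]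
      rw [dif_pos h, dif_neg (fun h => h.1 rfl), zero_add, neg_add, ext0, dif_pos hE, add_comm,
        add_neg_cancel_left]
      congr 1
      apply Finset.sum_congr rfl
      intro m hm
      have hm' : m ≠ l := Finset.ne_of_mem_erase hm
      by_cases h1 : a < m
      · rw [dif_pos h1, dif_pos ⟨hm', h1⟩]
      · rw [dif_neg h1, dif_neg (fun h' => h1 h'.2)]
    rw [hg]
    apply Subalgebra.neg_mem
    apply Subalgebra.sum_mem
    intro m _
    split_ifs with h1
    · apply Subalgebra.mul_mem
      · refine supported_mono (fun p hp => ?_) (Y_cols t m)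
        rintro rfl
        exact absurd hp (not_le.2 h1.2)
      · apply ext0_mem
        intro h2 h3
        exact h1.1 (congrArg (fun q : Edge E => q.1.1.1) h3)
    · exact Subalgebra.zero_mem _
  rcases H a hat with hE | ⟨l, l', h, h', hll, hlt, hE, hE'⟩
  · obtain ⟨g, hg, hgs⟩ := split t hat hE
    rw [hg]
    rw [mem_supported] at hgs
    apply irreducible_mul_X_add
    · rw [Y_diag]; exact neg_ne_zero.2 one_ne_zero
    · rw [Y_diag]
      simp
    · intro h2
      exact hgs h2 rfl
    · rw [Y_diag]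
      intro d hd _
      exact isUnit_of_dvd_unit hd isUnit_one.neg
  · obtain ⟨g, hg, hgs⟩ := split l h hE
    have hl : l < t := hll.trans hlt
    have h1 : a.1 < l.1 := h
    have h2 : l.1 < t.1 := hl
    have hirr : Irreducible (Y E t l) := ih (t.1 - l.1) (by omega) hl rfl
    rw [hg]
    rw [mem_supported] at hgs
    have hcol : Y E t l ∈ supported ℂ {q : Edge E | a < q.1.1.2} :=
      supported_mono (fun p hp => lt_of_lt_of_le h hp) (Y_cols t l)
    apply irreducible_mul_X_add
    · exact neg_ne_zero.2 (hnz l hl.le)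
    · have h3 : - Y E t l ∈ supported ℂ {q : Edge E | a < q.1.1.2} := Subalgebra.neg_mem _ hcol
      rw [mem_supported] at h3
      intro h4
      have h5 := h3 h4
      exact lt_irrefl a h5
    · intro h2
      exact hgs h2 rfl
    · rw [IsRelPrime.neg_left_iff]
      intro d hd1 hd2
      by_contra hd
      have h3 : Y E t l ∣ d := by
        obtain ⟨e, he⟩ := hd1
        rcases hirr.isUnit_or_isUnit he with h | h
        · exact absurd h hd
        · rw [he]
          exact (IsUnit.mul_right_dvd h).2 dvd_rfl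
      have h4 : Y E t l ∣ g := h3.trans hd2
      have h5 : rho E a l' (Y E t l) ∣ rho E a l' g := map_dvd _ h4
      have h6 : g = Y E t a + Y E t l * X ⟨⟨(l, a), h⟩, hE⟩ := by rw [hg]; ring
      have h7 : rho E a l' (X ⟨⟨(l, a), h⟩, hE⟩ : RE E) = 0 := by
        simp [rho, hll.ne]
      rw [rho_fix hcol, h6, map_add, map_mul, h7, mul_zero, add_zero,
        rho_Y hat.ne' h' hE', dvd_neg] at h5
      exact not_dvd_of_col hl.ne' hll (hnz l' hlt.le) h5

/-- `Y t a` vanishes at the origin. -/
lemma Y_mem {t a : Fin (N + 1)} (h : t ≠ a) : Y E t a ∈ idealOfVars (Edge E) ℂ := by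
  rw [Y_row, if_neg h, zero_sub]
  apply (Ideal.neg_mem_iff _).2
  apply Ideal.sum_mem
  intro l _
  split_ifs
  · apply Ideal.mul_mem_left
    rw [ext0]
    split_ifs
    · exact Ideal.subset_span ⟨_, rfl⟩
    · exact Ideal.zero_mem _
  · exact Ideal.zero_mem _

/-- specialisation along a path `a → l → t` or `a → t` -/
noncomputable def zsp (E : Low (N + 1) → Prop) [DecidablePred E] (S : Set (Low (N + 1)))
    [DecidablePred (· ∈ S)] : Edge E → Polynomial ℂ :=
  fun p => if p.1 ∈ S then Polynomial.X else 0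

lemma spec_mem {G : RE E} {m : ℕ} (hG : G ∈ idealOfVars (Edge E) ℂ ^ m)
    (z : Edge E → Polynomial ℂ) (hz : ∀ p, Polynomial.X ∣ z p) :
    Polynomial.X ^ m ∣ aeval z G := by
  have h1 := Ideal.mem_map_of_mem (aeval z : RE E →ₐ[ℂ] _) hG
  rw [Ideal.map_pow] at h1
  have h2 : Ideal.map (aeval z : RE E →ₐ[ℂ] _)
      (idealOfVars (Edge E) ℂ) ≤ Ideal.span {(Polynomial.X : Polynomial ℂ)} := by
    rw [idealOfVars, Ideal.map_span, Ideal.span_le]
    rintro _ ⟨_, ⟨p, rfl⟩, rfl⟩
    rw [aeval_X]
    exact Ideal.mem_span_singleton.2 (hz p)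
  have h3 := Ideal.pow_right_mono h2 m h1
  rwa [Ideal.span_singleton_pow, Ideal.mem_span_singleton] at h3

end Pool.Agent.X326.SM
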