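import Pool.Agent.X326.SM.Chart

/-!
# The permutation `345612` belongs to `ℳ₃`
-/

namespace Pool.Agent.X326.SM

open MvPolynomial Matrix Filter Topology
open Pool.Agent.TH151.SchubMult (Low lowMat permMat BwB schubertIdeal hilbertSamuel schubertIdeal_eq
  wperm wperm_fam wperm_val wperm_contains IsFam exists_order F Y_mem_pow F_ne_zero isMult_of_order
  Band RB ContainsPattern)

lemma permMat_one {n : ℕ} : permMat (1 : Equiv.Perm (Fin n)) = 1 := by
  ext i j
  rw [Pool.Agent.TH151.SchubMult.permMat_apply, Matrix.one_apply]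
  rfl

lemma chartIdeal_one {n : ℕ} (v : Equiv.Perm (Fin n)) : chartIdeal v 1 = schubertIdeal v := by
  rw [chartIdeal, schubertIdeal]
  congr 1
  ext x
  rw [Set.mem_setOf_eq, Set.mem_setOf_eq, permMat_one, one_mul]

/-- `p = 345612` -/
noncomputable def psmall : Equiv.Perm (Fin 6) := wperm 5 2 (by norm_num) le_rfl (by norm_num)

lemma psmall_fam : IsFam 5 2 psmall := wperm_fam (by norm_num) le_rfl (by norm_num)

lemma hs_zero {n : ℕ} {v u : Equiv.Perm (Fin n)} (h : ¬ PointMem v u) (k : ℕ) :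
    hilbertSamuelAt v u k = 0 := by
  have hmax : (idealOfVars (Low n) ℂ).IsMaximal := by
    have hker : RingHom.ker (aeval (fun _ => (0 : ℂ)) : MvPolynomial (Low n) ℂ →ₐ[ℂ] ℂ) =
        idealOfVars (Low n) ℂ := by
      ext p
      rw [RingHom.mem_ker]
      have h7 : constantCoeff p = aeval (fun _ => (0 : ℂ)) p := by
        have h8 := aeval_zero (σ := Low n) (R := ℂ) (S₁ := ℂ) p
        simpa using h8.symm
      rw [← h7]
      have h9 := mem_pow_idealOfVars_iff' (σ := Low n) (R := ℂ) 1 p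
      rw [pow_one] at h9
      rw [h9]
      constructor
      · intro h x hx
        have hx0 : x = 0 := by
          rw [Nat.lt_one_iff, Finsupp.degree_eq_zero_iff] at hx
          exact hx
        rw [hx0, ← constantCoeff_eq]
        exact h
      · intro h
        have := h 0 (by simp)
        rwa [← constantCoeff_eq] at this
    rw [← hker]
    apply RingHom.ker_isMaximal_of_surjective
    intro c
    exact ⟨C c, by simp⟩
  have h1 : chartIdeal v u ⊔ idealOfVars (Low n) ℂ = ⊤ := by
    by_contra hcon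
    apply h
    have h2 : idealOfVars (Low n) ℂ ≤ chartIdeal v u ⊔ idealOfVars (Low n) ℂ := le_sup_right
    have h3 := hmax.eq_of_le hcon h2
    rw [PointMem]
    conv_rhs => rw [h3]
    exact le_sup_left
  have h2 : chartIdeal v u ⊔ idealOfVars (Low n) ℂ ^ k = ⊤ := Ideal.sup_pow_eq_top h1
  rw [hilbertSamuelAt, h2]
  have : Subsingleton (MvPolynomial (Low n) ℂ ⧸ (⊤ : Ideal (MvPolynomial (Low n) ℂ))) :=
    Ideal.Quotient.subsingleton_iff.2 rfl
  exact Module.finrank_zero_of_subsingleton

lemma pointMem_of_tendsto {n : ℕ} {v u : Equiv.Perm (Fin n)} {e : ℝ} (he : 0 < e) {d : ℕ}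
    (h : Tendsto (fun k : ℕ => (d.factorial : ℝ) * (hilbertSamuelAt v u k : ℝ) / (k : ℝ) ^ d)
      atTop (𝓝 e)) : PointMem v u := by
  by_contra hcon
  have h1 : (fun k : ℕ => (d.factorial : ℝ) * (hilbertSamuelAt v u k : ℝ) / (k : ℝ) ^ d) =
      fun _ => 0 := by
    funext k
    rw [hs_zero hcon k]
    simp
  rw [h1] at h
  have := tendsto_nhds_unique h tendsto_const_nhds
  exact he.ne' this

lemma psmall_mem : ∃ s : ℕ, 3 ≤ s ∧ IsMultAt psmall 1 s := by
  obtain ⟨s, hs, hs'⟩ := exists_order (F_ne_zero (N := 5) (b := 2) (by norm_num))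
  have h3 := isMult_of_order le_rfl (by norm_num) (by norm_num) psmall_fam hs hs'
  have h5 : F 5 2 ∈ idealOfVars (Band 5 2) ℂ ^ 3 := by
    apply Y_mem_pow
    simp
  refine ⟨s, ?_, ?_⟩
  · by_contra hcon
    exact hs' (Ideal.pow_le_pow_right (by omega) h5)
  · obtain ⟨h6, d, h7⟩ := h3
    have hHS : ∀ k, hilbertSamuelAt psmall 1 k = hilbertSamuel psmall k := by
      intro k
      rw [hilbertSamuelAt, hilbertSamuel, chartIdeal_one]
    simp_rw [← hHS] at h7
    exact ⟨pointMem_of_tendsto h6 h7, h6, d, h7⟩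

lemma wbig_contains : ContainsPattern wbig psmall := wperm_contains 2 le_rfl

end Pool.Agent.X326.SM
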